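import Pool.Agent.Run7.h141.ND1.Iface

/-!
# Project ND1 (helper141), piece GL: the theorem of Gehring and Lehto
-/

set_option autoImplicit false

namespace Run7.h136.ND1

open Set Filter Topology MeasureTheory Run7.h141.ND1

/-- the points with good partial difference quotients -/
def EE (G : ℂ → ℂ) (k n : ℕ) (p q : ℂ) : Set ℂ :=
  {z | ∀ h : ℝ, |h| ≤ 1 / ((n : ℝ) + 1) →
    ‖G (z + h) - G z - h * p‖ ≤ 1 / ((k : ℝ) + 1) * |h| ∧
    ‖G (z + h * Complex.I) - G z - h * q‖ ≤ 1 / ((k : ℝ) + 1) * |h|}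

theorem EE_closed (G : ℂ → ℂ) (hG : Continuous G) (k n : ℕ) (p q : ℂ) :
    IsClosed (EE G k n p q) := by
  unfold EE
  simp only [Set.setOf_forall]
  refine isClosed_iInter fun h => isClosed_iInter fun _ => ?_
  rw [Set.setOf_and]
  refine IsClosed.inter ?_ ?_
  · exact isClosed_le (by fun_prop) continuous_const
  · exact isClosed_le (by fun_prop) continuous_const

theorem quot_of_line (G : ℂ → ℂ) (z v P : ℂ) (h : HasLineDerivAt ℝ G P z v) {c : ℝ} (hc : 0 < c) :
    ∃ r : ℝ, 0 < r ∧ ∀ h : ℝ, |h| ≤ r → ‖G (z + h * v) - G z - h * P‖ ≤ c * |h| := by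
  unfold HasLineDerivAt at h
  rw [hasDerivAt_iff_isLittleO_nhds_zero] at h
  have h1 := h.def hc
  rw [Metric.eventually_nhds_iff] at h1
  obtain ⟨r, hr, h2⟩ := h1
  refine ⟨r / 2, by positivity, fun t ht => ?_⟩
  have h3 := h2 (y := t) (by rw [Real.dist_eq, sub_zero]; linarith)
  simpa [Real.norm_eq_abs] using h3

theorem t_GL (hGLA : S_GLA) (hDEN : S_DEN) : S_GL := by
  intro G R hG hR hop hline
  obtain ⟨d, hd⟩ : ∃ d : ℕ → ℂ, DenseRange d :=
    ⟨TopologicalSpace.denseSeq ℂ, TopologicalSpace.denseRange_denseSeq ℂ⟩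
  have h1 : ∀ᵐ z : ℂ, ∀ k n i j l : ℕ, z ∈ EE G k n (d i) (d j) →
      Dense (EE G k n (d i) (d j)) 1 z (1 / ((l : ℝ) + 4)) := by
    refine ae_all_iff.2 fun k => ae_all_iff.2 fun n => ae_all_iff.2 fun i => ae_all_iff.2 fun j =>
      ae_all_iff.2 fun l => ?_
    exact hDEN _ _ _ (EE_closed G hG k n (d i) (d j)) (by positivity)
  have h2 : ∀ᵐ z : ℂ, ∀ k n i j l : ℕ, z ∈ EE G k n (d i) (d j) →
      Dense (EE G k n (d i) (d j)) Complex.I z (1 / ((l : ℝ) + 4)) := by
    refine ae_all_iff.2 fun k => ae_all_iff.2 fun n => ae_all_iff.2 fun i => ae_all_iff.2 fun j =>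
      ae_all_iff.2 fun l => ?_
    exact hDEN _ _ _ (EE_closed G hG k n (d i) (d j)) (by positivity)
  filter_upwards [h1, h2, hline] with z a1 a2 a3 hz
  obtain ⟨b1, b2⟩ := a3 hz
  obtain ⟨P, hP⟩ : ∃ P, HasLineDerivAt ℝ G P z 1 := ⟨_, b1.hasLineDerivAt⟩
  obtain ⟨Q, hQ⟩ : ∃ Q, HasLineDerivAt ℝ G Q z Complex.I := ⟨_, b2.hasLineDerivAt⟩
  have hF : HasFDerivAt G (Complex.reCLM.smulRight P + Complex.imCLM.smulRight Q) z := by
    rw [hasFDerivAt_iff_isLittleO, Asymptotics.isLittleO_iff]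
    intro c hc
    obtain ⟨k, hk⟩ := exists_nat_ge (21 / c)
    have hk0 : (0 : ℝ) < (k : ℝ) + 1 := by positivity
    obtain ⟨ε, hε⟩ : ∃ ε : ℝ, ε = 1 / ((k : ℝ) + 1) := ⟨_, rfl⟩
    have hε0 : 0 < ε := by rw [hε]; positivity
    have hεc : 21 * ε ≤ c := by
      rw [hε]
      rw [div_le_iff₀ hc] at hk
      rw [mul_one_div, div_le_iff₀ hk0]
      nlinarith
    obtain ⟨i, hi⟩ := hd.exists_dist_lt P (show 0 < ε / 2 by positivity)
    obtain ⟨j, hj⟩ := hd.exists_dist_lt Q (show 0 < ε / 2 by positivity)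
    rw [dist_eq_norm] at hi hj
    obtain ⟨r1, hr1, c1⟩ := quot_of_line G z 1 P hP (show 0 < ε / 2 by positivity)
    obtain ⟨r2, hr2, c2⟩ := quot_of_line G z Complex.I Q hQ (show 0 < ε / 2 by positivity)
    obtain ⟨n, hn⟩ := exists_nat_ge (1 / min r1 r2)
    have hr : 0 < min r1 r2 := lt_min hr1 hr2
    have hn1 : 1 / ((n : ℝ) + 1) ≤ min r1 r2 := by
      rw [div_le_iff₀ hr] at hn
      rw [div_le_iff₀ (by positivity)]
      nlinarith
    have hzE : z ∈ EE G k n (d i) (d j) := by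
      intro h hh
      have hh' := hh.trans hn1
      constructor
      · have := c1 h (hh'.trans (min_le_left _ _))
        rw [mul_one] at this
        have e : G (z + h) - G z - h * d i = (G (z + h) - G z - h * P) + h * (P - d i) := by ring
        rw [e, ← hε]
        refine (norm_add_le _ _).trans ?_
        rw [norm_mul, Complex.norm_real, Real.norm_eq_abs]
        have h5 : |h| * ‖P - d i‖ ≤ |h| * (ε / 2) := mul_le_mul_of_nonneg_left hi.le (abs_nonneg _)
        linarith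
      · have := c2 h (hh'.trans (min_le_right _ _))
        have e : G (z + h * Complex.I) - G z - h * d j =
            (G (z + h * Complex.I) - G z - h * Q) + h * (Q - d j) := by ring
        rw [e, ← hε]
        refine (norm_add_le _ _).trans ?_
        rw [norm_mul, Complex.norm_real, Real.norm_eq_abs]
        have h5 : |h| * ‖Q - d j‖ ≤ |h| * (ε / 2) := mul_le_mul_of_nonneg_left hj.le (abs_nonneg _)
        linarith
    obtain ⟨l, hl⟩ := exists_nat_ge ((‖d i‖ + ‖d j‖) / ε)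
    have hl0 : (0 : ℝ) < (l : ℝ) + 4 := by positivity
    have hδ : 1 / ((l : ℝ) + 4) * (‖d i‖ + ‖d j‖) ≤ ε := by
      rw [div_le_iff₀ hε0] at hl
      rw [one_div_mul_eq_div, div_le_iff₀ hl0]
      nlinarith
    have key := hGLA G R (EE G k n (d i) (d j)) z (d i) (d j) ε (1 / ((n : ℝ) + 1))
      (1 / ((l : ℝ) + 4)) hG hR hop hz hzE hε0 (by positivity) (by positivity)
      (by
        rw [div_le_div_iff₀ hl0 (by norm_num)]
        have : (0 : ℝ) ≤ l := Nat.cast_nonneg _
        linarith) hδ (by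
        intro z' hz' h hh
        rw [hε]
        exact hz' h hh) (a1 k n i j l hzE) (a2 k n i j l hzE)
    filter_upwards [key] with z' hz'
    have e : G z' - G z - (Complex.reCLM.smulRight P + Complex.imCLM.smulRight Q) (z' - z) =
        (G z' - G z - ((z' - z).re : ℂ) * d i - ((z' - z).im : ℂ) * d j) -
          (((z' - z).re : ℂ) * (P - d i) + ((z' - z).im : ℂ) * (Q - d j)) := by
      have e1 : (Complex.reCLM.smulRight P + Complex.imCLM.smulRight Q) (z' - z) =
          ((z' - z).re : ℂ) * P + ((z' - z).im : ℂ) * Q := by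
        simp
      rw [e1]
      ring
    rw [e]
    refine (norm_sub_le _ _).trans ?_
    have f1 : ‖((z' - z).re : ℂ) * (P - d i) + ((z' - z).im : ℂ) * (Q - d j)‖ ≤ ε * ‖z' - z‖ := by
      refine (norm_add_le _ _).trans ?_
      rw [norm_mul, norm_mul, Complex.norm_real, Complex.norm_real, Real.norm_eq_abs,
        Real.norm_eq_abs]
      have g1 := Complex.abs_re_le_norm (z' - z)
      have g2 := Complex.abs_im_le_norm (z' - z)
      have g3 : |(z' - z).re| * ‖P - d i‖ ≤ ‖z' - z‖ * (ε / 2) :=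
        mul_le_mul g1 hi.le (norm_nonneg _) (norm_nonneg _)
      have g4 : |(z' - z).im| * ‖Q - d j‖ ≤ ‖z' - z‖ * (ε / 2) :=
        mul_le_mul g2 hj.le (norm_nonneg _) (norm_nonneg _)
      linarith
    have f2 : 21 * ε * ‖z' - z‖ ≤ c * ‖z' - z‖ := mul_le_mul_of_nonneg_right hεc (norm_nonneg _)
    linarith
  exact hF.differentiableAt

end Run7.h136.ND1
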