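import Pool.Agent.Run7.h141.ND1.Iface

/-!
# Project ND1 (helper141), piece MON: topology of the circle
-/

set_option autoImplicit false

namespace Run7.h136.ND1

open Set Filter Topology MeasureTheory Run7.h141.ND1

theorem t_MON : S_MON := by
  intro X _ _ γ c a b hγ hp hi hc hci hr x₀ hx₀
  obtain ⟨s₀, hs₀⟩ := hr x₀ hx₀
  have hinj := R789.C1.inj_of_injOn hp hi
  have hK : IsClosed (γ '' Icc (s₀ + 1 / 4) (s₀ + 3 / 4)) :=
    (isCompact_Icc.image hγ).isClosed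
  have hx : c x₀ ∉ γ '' Icc (s₀ + 1 / 4) (s₀ + 3 / 4) := by
    rintro ⟨t, ⟨h1, h2⟩, h3⟩
    exact hinj s₀ t (by linarith) (by linarith) (hs₀.trans h3.symm)
  have hct : ContinuousAt c x₀ := hc.continuousAt (Ioo_mem_nhds hx₀.1 hx₀.2)
  have hev : ∀ᶠ x in 𝓝 x₀, c x ∉ γ '' Icc (s₀ + 1 / 4) (s₀ + 3 / 4) ∧ x ∈ Ioo a b :=
    (hct.eventually (hK.isOpen_compl.mem_nhds hx)).and (Ioo_mem_nhds hx₀.1 hx₀.2)
  rw [Metric.eventually_nhds_iff] at hev
  obtain ⟨δ, hδ, hev⟩ := hev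
  have hev' : ∀ x ∈ Ioo (x₀ - δ) (x₀ + δ), c x ∉ γ '' Icc (s₀ + 1 / 4) (s₀ + 3 / 4) ∧
      x ∈ Ioo a b := by
    intro x hx
    apply hev
    rw [Real.dist_eq, abs_lt]
    constructor <;> linarith [hx.1, hx.2]
  have hex : ∀ x : ℝ, ∃ t : Icc (s₀ - 1 / 4) (s₀ + 1 / 4), x ∈ Ioo (x₀ - δ) (x₀ + δ) →
      c x = γ t := by
    intro x
    by_cases hxI : x ∈ Ioo (x₀ - δ) (x₀ + δ)
    · obtain ⟨h1, h2⟩ := hev' x hxI
      obtain ⟨t, ht⟩ := hr x h2
      have hP : Function.Periodic γ 1 := hp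
      obtain ⟨y, hy, hty⟩ := hP.exists_mem_Ico one_pos t (s₀ - 1 / 4)
      have h3 : y < s₀ + 1 / 4 := by
        by_contra h
        push Not at h
        exact h1 ⟨y, ⟨h, by linarith [hy.2]⟩, by rw [← hty, ht]⟩
      exact ⟨⟨y, hy.1, h3.le⟩, fun _ => by rw [← ht, hty]⟩
    · exact ⟨⟨s₀, by constructor <;> linarith⟩, fun h => absurd h hxI⟩
  choose s hs using hex
  have hg : IsClosedEmbedding (fun t : Icc (s₀ - 1 / 4) (s₀ + 1 / 4) => γ t) := by
    refine Continuous.isClosedEmbedding (hγ.comp continuous_subtype_val) ?_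
    intro u v huv
    have huv' : γ u = γ v := huv
    rcases lt_trichotomy (u : ℝ) v with h | h | h
    · exact absurd huv' (hinj u v h (by linarith [u.2.1, v.2.2]))
    · exact Subtype.ext h
    · exact absurd huv'.symm (hinj v u h (by linarith [v.2.1, u.2.2]))
  have hsub : Ioo (x₀ - δ) (x₀ + δ) ⊆ Ioo a b := fun x hx => (hev' x hx).2
  have hcs : ContinuousOn s (Ioo (x₀ - δ) (x₀ + δ)) := by
    rw [hg.isInducing.continuousOn_iff]
    exact (hc.mono hsub).congr fun x hx => (hs x hx).symm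
  have hcs' : ContinuousOn (fun x => (s x : ℝ)) (Ioo (x₀ - δ) (x₀ + δ)) :=
    continuous_subtype_val.comp_continuousOn hcs
  have hsi : InjOn (fun x => (s x : ℝ)) (Ioo (x₀ - δ) (x₀ + δ)) := by
    intro x hx y hy hxy
    have hxy' : (s x : ℝ) = s y := hxy
    exact hci (hsub hx) (hsub hy) (by rw [hs x hx, hs y hy, hxy'])
  refine ⟨δ, hδ, fun x => (s x : ℝ), ?_, hcs', hs⟩
  rcases ContinuousOn.strictMonoOn_of_injOn_Ioo (by linarith) hcs' hsi with h | h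
  · exact Or.inl h.monotoneOn
  · exact Or.inr h.antitoneOn

end Run7.h136.ND1
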